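import Pool.Agent.W_4481e3_q87.GoR
import Pool.Agent.W_4481e3_tab.T7

/-!
Tree s01o7, data 8.
-/

namespace Pool.Agent.W_4481e3_rt.s01o7

open Pool.Agent.W_4481e3_q25.EvR

theorem k170 : ckO Pool.Agent.W_4481e3_tab.T7.tab 353920 637120 33554432 2097152 2965504 4194304 5 524288 524288 1572864 524288 515354132 515354132 7172260 7172260 268435456 268435456 16777216 16777216 4236248 4236248 0x102000c02000c02000c1202000c02000c03000c202000c03000c2121 = true := by decide +kernel

theorem k173 : ckO Pool.Agent.W_4481e3_tab.T7.tab 353920 637120 33554432 2097152 2965504 4194304 5 524288 524288 1572864 524288 522526392 493837352 14344520 14344520 268435456 268435456 16777216 16777216 4236248 4236248 0x100000c00026c00013c02000c21200026c0100ec01006c121 = true := by decide +kernel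

theorem k175 : ckO Pool.Agent.W_4481e3_tab.T7.tab 353920 637120 33554432 2097152 2965504 4194304 8 524288 524288 1572864 524288 493837352 508181872 14344520 28689040 268435456 268435456 16777216 16777216 4236248 4236248 0x100000c00000c00000c00000c00000c02000c12100013c00026c02000c100013c00026c20209fc0309fc2121212 = true := by decide +kernel

end Pool.Agent.W_4481e3_rt.s01o7
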